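import Mathlib
import Pool.Agent.Lib.MP_c850b7_lc.Model

set_option autoImplicit false

namespace Pool.Agent.Lib.MP_c850b7_lc.Variants.Counterexample

open FirstOrder FirstOrder.Language

/-- There is a finite signature of operations (no relation symbols) and two nonempty finitely
generated algebras of that signature that realise the same complete types of finite tuples over
the empty set and are not isomorphic. -/
theorem result :
    ∃ (L : FirstOrder.Language.{0, 0}) (_ : L.IsAlgebraic) (_ : Finite L.Symbols)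
      (H₁ H₂ : Type) (_ : L.Structure H₁) (_ : L.Structure H₂),
      Nonempty H₁ ∧ Nonempty H₂ ∧ Structure.FG L H₁ ∧ Structure.FG L H₂ ∧
      (∀ (n : ℕ) (a : Fin n → H₁), ∃ b : Fin n → H₂,
        ∀ φ : L.Formula (Fin n), φ.Realize a ↔ φ.Realize b) ∧
      (∀ (n : ℕ) (b : Fin n → H₂), ∃ a : Fin n → H₁,
        ∀ φ : L.Formula (Fin n), φ.Realize a ↔ φ.Realize b) ∧
      IsEmpty (H₁ ≃[L] H₂) :=
  ⟨Lib.MP_c850b7_lc.LL, Lib.MP_c850b7_lc.LL_algebraic, Lib.MP_c850b7_lc.LL_finite,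
    Lib.MP_c850b7_lc.HA 0, Lib.MP_c850b7_lc.HA 1, inferInstance, inferInstance,
    ⟨Lib.MP_c850b7_lc.gen 0⟩, ⟨Lib.MP_c850b7_lc.gen 1⟩, Lib.MP_c850b7_lc.fg_HA 0,
    Lib.MP_c850b7_lc.fg_HA 1, Lib.MP_c850b7_lc.types01, Lib.MP_c850b7_lc.types10,
    Lib.MP_c850b7_lc.not_iso⟩

end Pool.Agent.Lib.MP_c850b7_lc.Variants.Counterexample
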